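import Pool.Agent.Helper15.AM.GoalsG
import Pool.Agent.Helper45.AM.GoalsB

/-!
# Project AM (MP_cc6379_al): packet AM-B9 (comparison of two triples of the same element)
-/

set_option autoImplicit false

open LaurentPolynomial Pool.Agent.Helper15.RA Pool.Agent.Helper45.AM Pool.Agent.Helper15.AM

noncomputable section

namespace Pool.Agent.Helper83.AM

/-- **AM-B9**. -/
theorem h_b_9 (hPC : G_PC) (hB1 : B_1) (hB2 : B_2) (hB4 : B_4) (hB8 : B_8) : B_9 := by
  intro S W H _ _ _ X b b' x g y x' g' y' hT hT' hw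
  obtain ⟨b1, -, -, -, -, -, -, -, -, -, -, b12, -⟩ := hB1 S W H X
  obtain ⟨b2, -⟩ := hB2 S W H X
  obtain ⟨-, b4, -⟩ := hB4 S W H X
  obtain ⟨-, -, b83, b84, b85⟩ := hB8 S W H X
  obtain ⟨hx, hg, hgK, hy⟩ := hT
  obtain ⟨hx', hg', hgK', hy'⟩ := hT'
  have T1 := b83 b x g y ⟨hx, hg, hgK, hy⟩
  have T2 := b83 b' x' g' y' ⟨hx', hg', hgK', hy'⟩
  rw [← hw] at T2
  obtain ⟨c1, c2⟩ := b85 x x' _ T1 T2
  -- the middle factor is not in `W_K`
  have hne : ∀ κ β g₀ : W, κ ∈ par X.cs X.K → g₀ ∉ par X.cs X.K → g₀ = κ * β → β ≠ 1 := by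
    rintro κ β g₀ h1 h2 h3 rfl
    rw [mul_one] at h3
    exact h2 (h3 ▸ h1)
  have hmem : ∀ (c : Bool) (κ β g₀ : W), κ ∈ par X.cs X.K → g₀ ∈ par X.cs (X.F c) → g₀ = κ * β →
      β ∈ par X.cs (X.F c) := by
    intro c κ β g₀ h1 h2 h3
    have h4 : β = κ⁻¹ * g₀ := by rw [h3, inv_mul_cancel_left]
    rw [h4]
    exact mul_mem (inv_mem (b1 c h1)) h2
  have hY : ∀ (c : Bool) (a z : W), XL X.cs (X.F c) z → a ∈ par X.cs (X.F c) → XL X.cs X.K a → a ≠ 1 →
      XL X.cs (X.F (!c)) (a * z) := by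
    intro c a z h1 h2 h3 h4
    refine b12 (!c) z a ?_ ?_ h3 h4
    · rw [Bool.not_not]
      exact h1
    · rw [Bool.not_not]
      exact h2
  constructor
  · intro hs
    have hxx := c1 hs
    subst hxx
    have h1 : g * y = g' * y' := by
      rw [mul_assoc, mul_assoc] at hw
      exact mul_left_cancel hw
    by_cases hbb : b' = b
    · subst hbb
      obtain ⟨-, -, -, -, -, u6, -⟩ := hPC S W X.M X.cs (X.F b')
      obtain ⟨h2, h3⟩ := u6 y y' g g' hy hy' hg hg' h1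
      exact ⟨rfl, h3, h2, rfl⟩
    · exfalso
      have hbb' : b' = !b := by
        cases b <;> cases b' <;> simp_all
      subst hbb'
      obtain ⟨-, -, -, u4, -, -, -⟩ := hPC S W X.M X.cs X.K
      obtain ⟨κ, hκ, a, ha, hga⟩ := u4 g
      have ha1 := hne κ a g hκ hgK hga
      have ha2 := hmem b κ a g hκ hg hga
      have hay := hY b a y hy ha2 ha ha1
      obtain ⟨-, -, -, -, -, u6, -⟩ := hPC S W X.M X.cs (X.F (!b))
      have h2 : g' * y' = κ * (a * y) := by rw [← h1, hga, mul_assoc]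
      obtain ⟨-, h4⟩ := u6 y' (a * y) g' κ hy' hay hg' (b1 _ hκ) h2
      exact hgK' (h4 ▸ hκ)
  · intro hs κ' β' hκ' hβ' hgk m hm
    have T := c2 hs
    obtain ⟨hu, hu1⟩ := b84 b' x x' T hx'
    have hβ1 := hne κ' β' g' hκ' hgK' hgk
    have hβ2 := hmem b' κ' β' g' hκ' hg' hgk
    have hv := hY b' β' y' hy' hβ2 hβ' hβ1
    obtain ⟨l, hl, u', hul, huv⟩ := b4 b' b (x⁻¹ * x') κ' hu hκ' (Or.inl hu1)
    have h1 : g * y = l * (u' * (β' * y')) := by
      have h2 : x * (g * y) = x * (l * (u' * (β' * y'))) := by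
        rw [← mul_assoc x g y, hw, ← mul_assoc l u', ← hul, hgk]
        group
      exact mul_left_cancel h2
    obtain ⟨-, -, -, -, -, u6, -⟩ := hPC S W X.M X.cs (X.F b)
    obtain ⟨-, h4⟩ := u6 y (u' * (β' * y')) g l hy (huv _ hv) hg hl h1
    subst h4
    have h5 : x' * κ' = x * g * u' := by
      rw [mul_assoc, ← hul]
      group
    have h6 : XL X.cs (X.F b) u' := by
      have h7 : XL X.cs (X.F (!b')) (1 : W) := by
        intro i _
        rw [mul_one, X.cs.length_simple, X.cs.length_one]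
      have := huv 1 h7
      rwa [mul_one] at this
    refine ⟨x, g, u', b, hg, h5, ?_, hm⟩
    rw [h5]
    exact b2 b x g u' ⟨hx, hg, hgK, h6⟩

end Pool.Agent.Helper83.AM
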