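import Pool.Agent.Helper15.AM.GoalsG
import Pool.Agent.Helper45.AM.GoalsA
import Pool.Agent.Helper45.AM.GoalsD

/-!
# Project AM (MP_cc6379_al): packet AM-D3 (reduction modulo `I_M`)
-/

set_option autoImplicit false

open LaurentPolynomial Pool.Agent.Helper15.RA Pool.Agent.Helper45.AM Pool.Agent.Helper15.AM

noncomputable section

namespace Pool.Agent.Helper83.AM

section red

variable {S W H : Type} [Group W] [Ring H] [Algebra ℤ[T;T⁻¹] H] (X : AC S W H)

/-- `Z` is, modulo `I_M^(≤ n)`, supported in `{u | a'(u) ≤ M, sl u ≤ n, ℓ u < L}`. -/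
def Red (M n L : ℕ) (Z : H) : Prop :=
  ∃ l : H, Z - l ∈ X.Idl M n ∧ ∀ u, X.D.t.repr l u ≠ 0 →
    ¬ X.Ge (M + 1) u ∧ X.sl u ≤ n ∧ X.cs.length u < L

variable {X} {M n n' L L' : ℕ} {Y Z : H}

theorem Red.mono (h : Red X M n L Z) (hn : n ≤ n') (hL : L ≤ L') : Red X M n' L' Z := by
  obtain ⟨l, h1, h2⟩ := h
  exact ⟨l, AC.Idl_mono hn h1, fun u hu =>
    ⟨(h2 u hu).1, (h2 u hu).2.1.trans hn, (h2 u hu).2.2.trans_le hL⟩⟩

theorem Red.zero (M n L : ℕ) : Red X M n L 0 :=
  ⟨0, by simp, fun u hu => absurd (by rw [map_zero, Finsupp.zero_apply]) hu⟩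

theorem Red.add (hY : Red X M n L Y) (hZ : Red X M n L Z) : Red X M n L (Y + Z) := by
  obtain ⟨y, h1, h2⟩ := hY
  obtain ⟨z, h3, h4⟩ := hZ
  refine ⟨y + z, ?_, fun u hu => ?_⟩
  · rw [add_sub_add_comm]
    exact add_mem h1 h3
  · rw [map_add, Finsupp.add_apply] at hu
    by_cases h5 : X.D.t.repr y u = 0
    · exact h4 u fun h6 => hu (by rw [h5, h6, add_zero])
    · exact h2 u h5

theorem Red.smul (p : ℤ[T;T⁻¹]) (hY : Red X M n L Y) : Red X M n L (p • Y) := by
  obtain ⟨y, h1, h2⟩ := hY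
  refine ⟨p • y, ?_, fun u hu => ?_⟩
  · rw [← smul_sub]
    exact Submodule.smul_mem _ _ h1
  · rw [map_smul, Finsupp.smul_apply, smul_eq_mul] at hu
    exact h2 u (right_ne_zero_of_mul hu)

theorem Red.sum {ι : Type*} {s : Finset ι} {f : ι → H} (h : ∀ i ∈ s, Red X M n L (f i)) :
    Red X M n L (∑ i ∈ s, f i) := by
  classical
  induction s using Finset.induction_on with
  | empty => exact Red.zero M n L
  | insert i s hi ih =>
    rw [Finset.sum_insert hi]
    exact (h i (Finset.mem_insert_self i s)).add (ih fun j hj => h j (Finset.mem_insert_of_mem hj))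

theorem Red.of_supp (h : ∀ u, X.D.t.repr Z u ≠ 0 → Red X M n L (X.D.t u)) : Red X M n L Z := by
  rw [← X.D.t.linearCombination_repr Z, Finsupp.linearCombination_apply, Finsupp.sum]
  exact Red.sum fun u hu => (h u (Finsupp.mem_support_iff.1 hu)).smul _

/-- add an element of the ideal -/
theorem Red.of_sub (hY : Y ∈ X.Idl M n) (hZ : Red X M n L (Z - Y)) : Red X M n L Z := by
  obtain ⟨l, h1, h2⟩ := hZ
  refine ⟨l, ?_, h2⟩
  have h3 : Z - l = (Z - Y - l) + Y := by abel
  rw [h3]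
  exact add_mem h1 hY

end red

/-- **AM-D3**. -/
theorem h_d_3 (hPA : G_PA) (hH1 : H_1) (hH2 : H_2) (hAS : A_S) (hB2 : B_2) (hB3 : B_3) (hB5 : B_5)
    (hD1 : D_1) : D_3 := by
  classical
  intro S W H _ _ _ X M
  obtain ⟨t1, -, -, -, -, t6, -, -⟩ := hH1 S W H X.M X.cs X.L X.D.toHecke1.toHecke0
  obtain ⟨-, -, -, c4, c5, -, -, -, -, -⟩ := hH2 S W H X.M X.cs X.L X.wt X.D
  obtain ⟨b21, -⟩ := hB2 S W H X
  obtain ⟨b31, b32, -, -, -, b36, b37, -, -⟩ := hB3 S W H X
  obtain ⟨-, -, b53, -⟩ := hB5 S W H X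
  obtain ⟨d1, -⟩ := hD1 S W H X
  have hXR1 : ∀ P : Set S, XR X.cs P (1 : W) := by
    intro P i _
    rw [one_mul, X.cs.length_simple, X.cs.length_one]
  have hXL1 : ∀ P : Set S, XL X.cs P (1 : W) := by
    intro P i _
    rw [mul_one, X.cs.length_simple, X.cs.length_one]
  -- the coordinates of `T_g - c_g`
  have hsub : ∀ g u, X.D.t.repr (X.D.t g - X.D.c g) u ≠ 0 →
      X.D.t.repr (X.D.c g) u ≠ 0 ∧ X.cs.length u < X.cs.length g := by
    intro g u hu
    rw [map_sub, Finsupp.sub_apply, X.D.t.repr_self] at hu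
    have hne : u ≠ g := by
      rintro rfl
      apply hu
      rw [Finsupp.single_eq_same, c4, sub_self]
    rw [Finsupp.single_apply, if_neg (Ne.symm hne), zero_sub, neg_ne_zero] at hu
    exact ⟨hu, (c5 g u hu).resolve_left hne⟩
  have main : ∀ N : ℕ, ∀ w : W, X.cs.length w = N →
      (X.Ge (M + 1) w → Red X M (X.sl w) (X.cs.length w) (X.D.t w)) ∧
        Red X M (X.sl w) (X.cs.length w + 1) (X.D.t w) := by
    intro N
    induction N using Nat.strong_induction_on with
    | _ N ih =>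
    intro w hwN
    have IH : ∀ u, X.cs.length u < X.cs.length w → X.sl u ≤ X.sl w →
        Red X M (X.sl w) (X.cs.length w) (X.D.t u) := by
      intro u hu hs
      exact (ih _ (hwN ▸ hu) u rfl).2.mono hs hu
    have h1 : X.Ge (M + 1) w → Red X M (X.sl w) (X.cs.length w) (X.D.t w) := by
      intro hGe
      rcases b53 (M + 1) w hGe with ⟨hK, hα⟩ | ⟨b, x, g, y, hT, rfl, hα⟩
      · have hs0 : X.sl w = 0 := (b31 w).2 hK
        obtain ⟨-, -, -, a4, -⟩ := hAS S W H X.toBase X.K
        have hs1 : X.sl 1 = 0 := (b31 1).2 (one_mem _)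
        have hB : X.B 1 w 1 = X.D.c w := by
          unfold AC.B
          rw [t1, one_mul, mul_one]
        have hmem : X.D.c w ∈ X.Idl M (X.sl w) := by
          rw [← hB]
          refine AC.B_mem_Idl (Or.inr ⟨hXR1 _, hK, hXL1 _⟩) (by omega) ?_
          unfold AC.nn
          rw [if_pos hK, hs1]
          exact Nat.zero_le _
        refine Red.of_sub hmem (Red.of_supp fun u hu => ?_)
        obtain ⟨h2, h3⟩ := hsub w u hu
        have h4 := a4 w hK u h2
        refine IH u h3 ?_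
        rw [(b31 u).2 h4]
        exact Nat.zero_le _
      · obtain ⟨hx, hg, hgK, hy⟩ := hT
        have hlen := b21 b x g y ⟨hx, hg, hgK, hy⟩
        have hsl := b32 b x g y ⟨hx, hg, hgK, hy⟩
        obtain ⟨-, -, p3⟩ := hPA S W X.M X.cs (X.F b)
        obtain ⟨-, -, -, a4, -⟩ := hAS S W H X.toBase (X.F b)
        have hxg := p3 x hx g hg
        have hTw : X.D.t (x * g * y) = X.D.t x * X.D.t g * X.D.t y := by
          rw [X.D.mul x g hxg, X.D.mul (x * g) y (by rw [hlen, hxg])]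
        have hmem : X.B x g y ∈ X.Idl M (X.sl (x * g * y)) := by
          refine AC.B_mem_Idl (Or.inl ⟨b, hx, hg, hy⟩) (by omega) ?_
          unfold AC.nn
          rw [if_neg hgK, hsl]
        refine Red.of_sub hmem ?_
        have hZ : X.D.t (x * g * y) - X.B x g y = X.D.t x * (X.D.t g - X.D.c g) * X.D.t y := by
          rw [hTw]
          unfold AC.B
          rw [mul_sub, sub_mul]
        rw [hZ]
        have hexp : X.D.t x * (X.D.t g - X.D.c g) * X.D.t y =
            ∑ u ∈ (X.D.t.repr (X.D.t g - X.D.c g)).support,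
              (X.D.t.repr (X.D.t g - X.D.c g)) u • (X.D.t x * X.D.t u * X.D.t y) := by
          conv_lhs => rw [← X.D.t.linearCombination_repr (X.D.t g - X.D.c g),
            Finsupp.linearCombination_apply, Finsupp.sum]
          rw [Finset.mul_sum, Finset.sum_mul]
          refine Finset.sum_congr rfl fun u _ => ?_
          rw [mul_smul_comm, smul_mul_assoc]
        rw [hexp]
        refine Red.sum fun g' hg' => Red.smul _ ?_
        obtain ⟨h2, h3⟩ := hsub g g' (Finsupp.mem_support_iff.1 hg')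
        have h4 := a4 g hg g' h2
        have h5 := p3 x hx g' h4
        rw [X.D.mul x g' h5]
        refine Red.of_supp fun u hu => ?_
        have h6 := t6 _ _ _ hu
        have h7 := d1 _ _ _ hu
        have h8 := b37 x g'
        have h9 := b36 b g' h4
        refine IH u ?_ ?_
        · rw [hlen]
          omega
        · rw [hsl]
          omega
    refine ⟨h1, ?_⟩
    by_cases hGe : X.Ge (M + 1) w
    · exact (h1 hGe).mono le_rfl (Nat.le_succ _)
    · refine ⟨X.D.t w, by rw [sub_self]; exact zero_mem _, fun u hu => ?_⟩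
      rw [X.D.t.repr_self, Finsupp.single_apply_ne_zero] at hu
      obtain ⟨rfl, -⟩ := hu
      exact ⟨hGe, le_rfl, Nat.lt_succ_self _⟩
  intro w
  by_cases hGe : X.Ge (M + 1) w
  · obtain ⟨l, h1, h2⟩ := (main _ w rfl).1 hGe
    exact ⟨l, h1, fun h => absurd hGe h, fun u hu =>
      ⟨(h2 u hu).1, (h2 u hu).2.1, (h2 u hu).2.2.le, fun _ => (h2 u hu).2.2⟩⟩
  · refine ⟨X.D.t w, by rw [sub_self]; exact zero_mem _, fun _ => rfl, fun u hu => ?_⟩
    rw [X.D.t.repr_self, Finsupp.single_apply_ne_zero] at hu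
    obtain ⟨rfl, -⟩ := hu
    exact ⟨hGe, le_rfl, le_rfl, fun h => absurd h hGe⟩

end Pool.Agent.Helper83.AM
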