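import Pool.Agent.Helper15.AM.GoalsG
import Pool.Agent.Helper33.RA.V3

/-!
# Project AM (MP_cc6379_al): packet AM-VC (the parabolic data from `GoodSysU`)
-/

set_option autoImplicit false

open LaurentPolynomial Pool.Agent.Helper15.RA Pool.Agent.Helper45.AM Pool.Agent.Helper15.AM

noncomputable section

namespace Pool.Agent.Helper83.AM

/-- **AM-VC**. -/
theorem h_vc (hVB : V_B) (hPS : G_PS) : V_C := by
  classical
  intro S W H _ _ _ X I' e he hG
  obtain ⟨Hv, _, _, Dv, j, hj, jt, jc⟩ := hVB S W H X I' e he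
  obtain ⟨n1, n2, n3, n4⟩ := hPS S W X.M X.cs I' e he
  obtain ⟨⟨N, hN⟩, hv, a, good, hU⟩ := hG Hv Dv
  have hmem : ∀ x ∈ par X.cs (Set.range e), ∃ g, (iotaE X.cs e he) g = x := by
    intro x hx
    rw [← n3] at hx
    exact hx
  have hin : ∀ g, (iotaE X.cs e he) g ∈ par X.cs (Set.range e) := by
    intro g
    rw [← n3]
    exact ⟨g, rfl⟩
  have hmap : ∀ g g', X.h ((iotaE X.cs e he) g) ((iotaE X.cs e he) g') = (hv g g').mapDomain (iotaE X.cs e he) := by
    intro g g'
    rw [← Pool.Agent.Helper33.RA.isH_repr X.isH X.b X.hb, ← jc, ← jc, ← map_mul, good.isH g g']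
    rw [Finsupp.sum, map_sum]
    have h1 : ∑ x ∈ (hv g g').support, j ((hv g g') x • Dv.c x) =
        Finsupp.linearCombination ℤ[T;T⁻¹] X.b ((hv g g').mapDomain (iotaE X.cs e he)) := by
      rw [Finsupp.linearCombination_mapDomain, Finsupp.linearCombination_apply, Finsupp.sum]
      refine Finset.sum_congr rfl fun x _ => ?_
      rw [map_smul, jc, Function.comp_apply, X.hb]
    rw [h1, Module.Basis.repr_linearCombination]
  have hval : ∀ g g' l, X.h ((iotaE X.cs e he) g) ((iotaE X.cs e he) g') ((iotaE X.cs e he) l) = hv g g' l := by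
    intro g g' l
    rw [hmap, Finsupp.mapDomain_apply n2]
  have htm : ∀ Z : Hv, X.D.t.repr (j Z) = (Dv.t.repr Z).mapDomain (iotaE X.cs e he) := by
    intro Z
    have h1 : j Z = Finsupp.linearCombination ℤ[T;T⁻¹] X.D.t
        ((Dv.t.repr Z).mapDomain (iotaE X.cs e he)) := by
      rw [Finsupp.linearCombination_mapDomain, Finsupp.linearCombination_apply]
      conv_lhs => rw [← Dv.t.linearCombination_repr Z, Finsupp.linearCombination_apply]
      rw [Finsupp.sum, map_sum, Finsupp.sum]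
      refine Finset.sum_congr rfl fun x _ => ?_
      rw [map_smul, jt, Function.comp_apply]
    rw [h1, Module.Basis.repr_linearCombination]
  have hα : ∀ g, Function.extend (iotaE X.cs e he) a (fun _ => 0) ((iotaE X.cs e he) g) = a g := fun g => n2.extend_apply a _ g
  refine ⟨Function.extend (iotaE X.cs e he) a fun _ => 0, ⟨N, ?_⟩, ?_, ?_, ?_, ?_, ?_, ?_⟩
  · intro x hx y hy z
    obtain ⟨g, rfl⟩ := hmem x hx
    obtain ⟨g', rfl⟩ := hmem y hy
    rw [← jt, ← jt, ← map_mul, htm]
    by_cases hk : z ∈ Set.range (iotaE X.cs e he)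
    · obtain ⟨l, rfl⟩ := hk
      rw [Finsupp.mapDomain_apply n2]
      exact hN g g' l
    · rw [Finsupp.mapDomain_of_notMem_range _ _ hk]
      exact DegLE.zero _
  · intro x hx y hy z hz
    obtain ⟨g, rfl⟩ := hmem x hx
    obtain ⟨g', rfl⟩ := hmem y hy
    obtain ⟨l, rfl⟩ := hmem z hz
    rw [hval, hα]
    exact (good.isA l).1 g g'
  · intro z hz
    obtain ⟨l, rfl⟩ := hmem z hz
    obtain ⟨x, y, hxy⟩ := (good.isA l).2
    refine ⟨(iotaE X.cs e he) x, hin x, (iotaE X.cs e he) y, hin y, ?_⟩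
    rw [hval, hα]
    intro h0
    exact hxy (degLE_sub_one ((good.isA l).1 x y) h0)
  · intro z hz
    obtain ⟨g, rfl⟩ := hmem z hz
    have h1 := good.p1 g
    rw [← jc, htm, hα]
    have h2 : (Dv.t.repr (Dv.c g)).mapDomain (iotaE X.cs e he) 1 = Dv.t.repr (Dv.c g) 1 := by
      conv_lhs => rw [← map_one (iotaE X.cs e he)]
      rw [Finsupp.mapDomain_apply n2]
    rw [h2]
    exact h1
  · intro x hx y hy z hz hne
    obtain ⟨g, rfl⟩ := hmem x hx
    obtain ⟨g', rfl⟩ := hmem y hy
    obtain ⟨l, rfl⟩ := hmem z hz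
    rw [hval] at hne
    rw [hα, hα, hα]
    exact good.p4 g g' l hne
  · intro x hx y hy z hz hne
    obtain ⟨g, rfl⟩ := hmem x hx
    obtain ⟨g', rfl⟩ := hmem y hy
    obtain ⟨l, rfl⟩ := hmem z hz
    rw [hval, hα] at hne
    rw [hα, hα, hα]
    exact good.p8 g g' l hne
  · intro x hx
    obtain ⟨g, rfl⟩ := hmem x hx
    obtain ⟨lam, hlam⟩ := hU g
    refine ⟨lam.mapDomain (Prod.map (iotaE X.cs e he) (iotaE X.cs e he)), fun p hp => ?_, fun z hz => ?_⟩
    · have h1 := Finsupp.mapDomain_support hp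
      rw [Finset.mem_image] at h1
      obtain ⟨q, -, rfl⟩ := h1
      exact ⟨hin _, hin _⟩
    · obtain ⟨l, rfl⟩ := hmem z hz
      rw [Finsupp.sum_mapDomain_index_inj (Function.Injective.prodMap n2 n2)]
      have h2 : (if (iotaE X.cs e he) l = (iotaE X.cs e he) g then (1 : ℤ) else 0) = if l = g then 1 else 0 := by
        by_cases hlg : l = g
        · rw [if_pos (congrArg (iotaE X.cs e he) hlg), if_pos hlg]
        · rw [if_neg fun h => hlg (n2 h), if_neg hlg]
      rw [h2, hα]
      have h3 := hlam l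
      simp only [Prod.map_fst, Prod.map_snd, hval]
      simp only [gam] at h3
      convert h3 using 1

end Pool.Agent.Helper83.AM
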